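import Pool.Agent.Lib.MP_0f714a_pr.Iz.Final

open scoped NNReal
open Pool.Agent.Lib.MP_0f714a_pr

universe u

namespace Pool.Agent.Results.MP_0f714a_pr.IzeroExp

/-- The class `I₀` of standard p-functions all of whose factors are infinitely divisible consists
exactly of the exponentials.  In particular, for all `lam > 0` and `τ > 0` the truncated
exponential `t ↦ exp (-lam * min τ t)` has a factor that is not infinitely divisible; with
`lam = τ = 1` this refutes Q1. -/
theorem result :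
    (∀ p : ℝ≥0 → ℝ, IsStandard.{u} p →
      ((∀ q : ℝ≥0 → ℝ, IsFactor.{u} q p → IsInfDiv.{u} q) ↔
        ∃ lam : ℝ≥0, ∀ t : ℝ≥0, p t = Real.exp (-((lam : ℝ) * (t : ℝ))))) ∧
    ∀ lam τ : ℝ≥0, 0 < lam → 0 < τ →
      ∃ q : ℝ≥0 → ℝ, IsFactor.{u} q (truncExp lam τ) ∧ ¬ IsInfDiv.{u} q :=
  ⟨izero, main⟩

end Pool.Agent.Results.MP_0f714a_pr.IzeroExp
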